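import Pool.Agent.Run7.h847.DI.STEPa
import Pool.Agent.Run7.h245.SR.WALK
import Pool.Agent.Run7.h245.DI.Iface

/-!
# Project DI, piece STEP (helper847)
-/

set_option autoImplicit false

open scoped Classical

namespace Pool.Agent.Run7.h847.DI

open Pool.Agent.Run7.h245.SR (Sj)
open Pool.Agent.Run7.h245.DI

theorem card_two_mul {V : Type} [AddCommGroup V] [Finite V] {A B : AddSubgroup V} (h : A ≤ B)
    (hne : ∃ v ∈ B, v ∉ A) (h2 : Nat.card B ≤ 2 * Nat.card A) : Nat.card B = 2 * Nat.card A := by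
  obtain ⟨c, hc⟩ := AddSubgroup.card_dvd_of_le h
  have hpos : 0 < Nat.card A := Nat.card_pos
  have hlt : Nat.card A < Nat.card B := by
    refine lt_of_le_of_ne (Nat.le_of_dvd Nat.card_pos ⟨c, hc⟩) fun he => ?_
    obtain ⟨v, hv, hvA⟩ := hne
    exact hvA ((AddSubgroup.eq_of_le_of_card_ge h he.ge).symm ▸ hv)
  have hc1 : 1 < c := by
    by_contra hcon
    have : c ≤ 1 := by omega
    have := Nat.mul_le_mul_left (Nat.card A) this
    omega
  have hc2 : c ≤ 2 := by
    by_contra hcon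
    have : 3 ≤ c := by omega
    have := Nat.mul_le_mul_left (Nat.card A) this
    omega
  have : c = 2 := by omega
  rw [hc, this, mul_comm]

theorem step : S_STEP := by
  intro ι _ Λ J q hiso hsize hq
  obtain ⟨l, hlΛ, hl1, hl2, hlq⟩ := key Λ J q hiso hsize hq
  have memV : ∀ v, v ∈ Sj Λ J ↔ v ∈ Λ ∧ (∀ i ∉ J, (v i).1 = 0) ∧ ∀ i ∈ J, (v i).2 = 0 :=
    fun v => Iff.rfl
  have memV' : ∀ v, v ∈ Sj Λ (insert q J) ↔
      v ∈ Λ ∧ (∀ i ∉ insert q J, (v i).1 = 0) ∧ ∀ i ∈ insert q J, (v i).2 = 0 :=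
    fun v => Iff.rfl
  -- an element of the big group is in one of the two
  have hbig : ∀ v ∈ Λ, (∀ i ∉ insert q J, (v i).1 = 0) → (∀ i ∈ J, (v i).2 = 0) →
      v ∈ Sj Λ J ∨ v ∈ Sj Λ (insert q J) := by
    intro v hv h1 h2
    have h3 : (v q).1 * (v q).2 = 0 := by
      have h4 := hiso v hv
      rw [Finset.sum_eq_single q] at h4
      · exact h4
      · intro i _ hiq
        by_cases hi : i ∈ J
        · rw [h2 i hi, mul_zero]
        · rw [h1 i (by rw [Finset.mem_insert, not_or]; exact ⟨hiq, hi⟩), zero_mul]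
      · intro h; exact absurd (Finset.mem_univ q) h
    rcases mul_eq_zero.1 h3 with h | h
    · left
      refine (memV v).2 ⟨hv, fun i hi => ?_, h2⟩
      by_cases hiq : i = q
      · rw [hiq]; exact h
      · exact h1 i (by rw [Finset.mem_insert, not_or]; exact ⟨hiq, hi⟩)
    · right
      refine (memV' v).2 ⟨hv, h1, fun i hi => ?_⟩
      rcases Finset.mem_insert.1 hi with rfl | hi
      · exact h
      · exact h2 i hi
  have hle : Sj Λ (insert q J) ≤ Sj Λ J ∨ Sj Λ J ≤ Sj Λ (insert q J) := by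
    by_contra hcon
    rw [not_or] at hcon
    obtain ⟨ha, hb⟩ := hcon
    obtain ⟨a, haV', haV⟩ := SetLike.not_le_iff_exists.1 ha
    obtain ⟨b, hbV, hbV'⟩ := SetLike.not_le_iff_exists.1 hb
    obtain ⟨a0, a1, a2⟩ := (memV' a).1 haV'
    obtain ⟨b0, b1, b2⟩ := (memV b).1 hbV
    have hab : a + b ∈ Λ := Λ.add_mem a0 b0
    rcases hbig (a + b) hab (fun i hi => by
        show (a i).1 + (b i).1 = 0
        rw [a1 i hi, b1 i (fun h => hi (Finset.mem_insert_of_mem h)), add_zero])
      (fun i hi => by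
        show (a i).2 + (b i).2 = 0
        rw [a2 i (Finset.mem_insert_of_mem hi), b2 i hi, add_zero]) with h | h
    · exact haV (by
        have := (Sj Λ J).sub_mem h hbV
        rwa [add_sub_cancel_right] at this)
    · exact hbV' (by
        have := (Sj Λ (insert q J)).sub_mem h haV'
        rwa [add_sub_cancel_left] at this)
  rcases hle with hle | hle
  · left
    -- `V' ≤ V`
    have hlV : l ∈ Sj Λ J := by
      rcases hbig l hlΛ hl1 hl2 with h | h
      · exact h
      · exact hle h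
    have hlq1 : (l q).1 = 0 := ((memV l).1 hlV).2.1 q hq
    have hlq2 : (l q).2 ≠ 0 := fun h => hlq ⟨hlq1, h⟩
    refine ⟨⟨l, hlV, hlq2⟩, ?_⟩
    refine card_two_mul hle ⟨l, hlV, fun h => ?_⟩ ?_
    · exact hlq2 (((memV' l).1 h).2.2 q (Finset.mem_insert_self q J))
    · exact Pool.Agent.Run7.h245.SR.WALK.step_up Λ J q hq
  · right
    have hlV' : l ∈ Sj Λ (insert q J) := by
      rcases hbig l hlΛ hl1 hl2 with h | h
      · exact hle h
      · exact h
    have hlq2 : (l q).2 = 0 := ((memV' l).1 hlV').2.2 q (Finset.mem_insert_self q J)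
    have hlq1 : (l q).1 ≠ 0 := fun h => hlq ⟨h, hlq2⟩
    refine ⟨fun v hv => ((memV' v).1 (hle hv)).2.2 q (Finset.mem_insert_self q J), ?_⟩
    refine card_two_mul hle ⟨l, hlV', fun h => ?_⟩ ?_
    · exact hlq1 (((memV l).1 h).2.1 q hq)
    · exact Pool.Agent.Run7.h245.SR.WALK.step_down Λ J q

end Pool.Agent.Run7.h847.DI
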