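import Mathlib

/-!
# Project DI, piece STEP: linear algebra over `𝔽₂` (helper847)
-/

set_option autoImplicit false

open scoped Classical

namespace Pool.Agent.Run7.h847.DI

/-- the space -/
abbrev EE (ι : Type) : Type := ι → ZMod 2 × ZMod 2

/-- the pairing -/
noncomputable def BB (ι : Type) [Fintype ι] : EE ι →ₗ[ZMod 2] Module.Dual (ZMod 2) (EE ι) :=
  LinearMap.mk₂ (ZMod 2) (fun l m => ∑ i, ((l i).1 * (m i).2 + (l i).2 * (m i).1))
    (fun l l' m => by
      rw [← Finset.sum_add_distrib]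
      refine Finset.sum_congr rfl fun i _ => ?_
      simp only [Pi.add_apply, Prod.fst_add, Prod.snd_add]; ring)
    (fun c l m => by
      rw [Finset.smul_sum]
      refine Finset.sum_congr rfl fun i _ => ?_
      simp only [Pi.smul_apply, Prod.smul_fst, Prod.smul_snd, smul_eq_mul]; ring)
    (fun l m m' => by
      rw [← Finset.sum_add_distrib]
      refine Finset.sum_congr rfl fun i _ => ?_
      simp only [Pi.add_apply, Prod.fst_add, Prod.snd_add]; ring)
    (fun c l m => by
      rw [Finset.smul_sum]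
      refine Finset.sum_congr rfl fun i _ => ?_
      simp only [Pi.smul_apply, Prod.smul_fst, Prod.smul_snd, smul_eq_mul]; ring)

theorem BB_apply {ι : Type} [Fintype ι] (l m : EE ι) :
    BB ι l m = ∑ i, ((l i).1 * (m i).2 + (l i).2 * (m i).1) := rfl

theorem BB_inj {ι : Type} [Fintype ι] : Function.Injective (BB ι) := by
  rw [← LinearMap.ker_eq_bot, LinearMap.ker_eq_bot']
  intro l hl
  funext i
  have h1 : BB ι l (Pi.single i (0, 1)) = 0 := by rw [hl]; rfl
  have h2 : BB ι l (Pi.single i (1, 0)) = 0 := by rw [hl]; rfl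
  rw [BB_apply, Finset.sum_eq_single i] at h1 h2
  · simp at h1 h2
    exact Prod.ext h1 h2
  · intro b _ hb
    simp [Pi.single_eq_of_ne hb]
  · intro h; exact absurd (Finset.mem_univ i) h
  · intro b _ hb
    simp [Pi.single_eq_of_ne hb]
  · intro h; exact absurd (Finset.mem_univ i) h

theorem finrank_EE (ι : Type) [Fintype ι] :
    Module.finrank (ZMod 2) (EE ι) = 2 * Fintype.card ι := by
  rw [Module.finrank_pi_fintype]
  simp [Module.finrank_prod, mul_comm]

/-- orthogonal subspaces -/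
theorem finrank_le {ι : Type} [Fintype ι] (W Z : Submodule (ZMod 2) (EE ι))
    (h : ∀ z ∈ Z, ∀ w ∈ W, BB ι z w = 0) :
    Module.finrank (ZMod 2) W + Module.finrank (ZMod 2) Z ≤ 2 * Fintype.card ι := by
  have h1 : Z.map (BB ι) ≤ W.dualAnnihilator := by
    rintro _ ⟨z, hz, rfl⟩
    rw [Submodule.mem_dualAnnihilator]
    exact fun w hw => h z hz w hw
  have h2 : Module.finrank (ZMod 2) (Z.map (BB ι)) = Module.finrank (ZMod 2) Z :=
    (Submodule.equivMapOfInjective (BB ι) BB_inj Z).finrank_eq.symm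
  have h3 := Submodule.finrank_mono h1
  have h4 := Subspace.finrank_add_finrank_dualAnnihilator_eq W
  rw [finrank_EE] at h4
  omega

/-- the subspace `U` -/
def UU {ι : Type} [Fintype ι] (J : Finset ι) (q : ι) : Submodule (ZMod 2) (EE ι) where
  carrier := {l | (∀ i ∉ insert q J, (l i).1 = 0) ∧ ∀ i ∈ J, (l i).2 = 0}
  add_mem' := by
    rintro a b ⟨h2, h3⟩ ⟨h2', h3'⟩
    refine ⟨fun i hi => ?_, fun i hi => ?_⟩
    · show (a i).1 + (b i).1 = 0
      rw [h2 i hi, h2' i hi, add_zero]
    · show (a i).2 + (b i).2 = 0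
      rw [h3 i hi, h3' i hi, add_zero]
  zero_mem' := ⟨fun i _ => rfl, fun i _ => rfl⟩
  smul_mem' := by
    rintro c a ⟨h2, h3⟩
    refine ⟨fun i hi => ?_, fun i hi => ?_⟩
    · show c * (a i).1 = 0
      rw [h2 i hi, mul_zero]
    · show c * (a i).2 = 0
      rw [h3 i hi, mul_zero]

theorem finrank_of_card {V : Type} [AddCommGroup V] [Module (ZMod 2) V] [Finite V] {k : ℕ}
    (h : 2 ^ k ≤ Nat.card V) : k ≤ Module.finrank (ZMod 2) V := by
  have h1 : Nat.card V = Nat.card (ZMod 2) ^ Module.finrank (ZMod 2) V :=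
    Module.natCard_eq_pow_finrank (K := ZMod 2)
  rw [Nat.card_zmod] at h1
  rw [h1] at h
  exact (Nat.pow_le_pow_iff_right (by norm_num)).1 h

theorem finrank_UU {ι : Type} [Fintype ι] (J : Finset ι) (q : ι) (hq : q ∉ J) :
    Fintype.card ι + 1 ≤ Module.finrank (ZMod 2) (UU J q) := by
  refine finrank_of_card ?_
  let F : (ι → ZMod 2) × ZMod 2 → UU J q := fun p =>
    ⟨fun i => if i ∈ J then (p.1 i, 0) else if i = q then (p.2, p.1 i) else (0, p.1 i), by
      constructor
      · intro i hi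
        rw [Finset.mem_insert, not_or] at hi
        simp only
        rw [if_neg hi.2, if_neg hi.1]
      · intro i hi
        simp only
        rw [if_pos hi]⟩
  have hF : Function.Injective F := by
    intro p p' h
    have h1 : ∀ i, (F p).1 i = (F p').1 i := fun i => by rw [h]
    have h2 : ∀ i, p.1 i = p'.1 i := by
      intro i
      have h3 := h1 i
      simp only [F] at h3
      by_cases hi : i ∈ J
      · rw [if_pos hi, if_pos hi] at h3
        exact congrArg Prod.fst h3
      · rw [if_neg hi, if_neg hi] at h3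
        by_cases hiq : i = q
        · rw [if_pos hiq, if_pos hiq] at h3
          exact congrArg Prod.snd h3
        · rw [if_neg hiq, if_neg hiq] at h3
          exact congrArg Prod.snd h3
    have h4 : p.2 = p'.2 := by
      have h3 := h1 q
      simp only [F] at h3
      rw [if_neg hq, if_neg hq] at h3
      simp only [if_true] at h3
      exact congrArg Prod.fst h3
    exact Prod.ext (funext h2) h4
  have h5 := Nat.card_le_card_of_injective F hF
  rw [Nat.card_prod, Nat.card_fun, Nat.card_zmod, Nat.card_eq_fintype_card (α := ι)] at h5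
  rw [pow_succ]
  exact h5

theorem key {ι : Type} [Fintype ι] (Λ : AddSubgroup (EE ι)) (J : Finset ι) (q : ι)
    (hiso : ∀ l ∈ Λ, ∑ i, (l i).1 * (l i).2 = 0) (hsize : 2 ^ Fintype.card ι ≤ Nat.card Λ)
    (hq : q ∉ J) : ∃ l ∈ Λ, (∀ i ∉ insert q J, (l i).1 = 0) ∧ (∀ i ∈ J, (l i).2 = 0) ∧
      ¬ ((l q).1 = 0 ∧ (l q).2 = 0) := by
  by_contra hcon
  push Not at hcon
  set L : Submodule (ZMod 2) (EE ι) := AddSubgroup.toZModSubmodule 2 Λ with hL
  have hLmem : ∀ l, l ∈ L ↔ l ∈ Λ := fun l => Iff.rfl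
  have hLf : Fintype.card ι ≤ Module.finrank (ZMod 2) L := finrank_of_card hsize
  have hU := finrank_UU J q hq
  have hpol : ∀ l ∈ Λ, ∀ m ∈ Λ, BB ι l m = 0 := by
    intro l hl m hm
    have h1 := hiso (l + m) (Λ.add_mem hl hm)
    have h2 := hiso l hl
    have h3 := hiso m hm
    have h4 : ∑ i, ((l + m) i).1 * ((l + m) i).2 =
        ∑ i, (l i).1 * (l i).2 + ∑ i, (m i).1 * (m i).2 + BB ι l m := by
      rw [BB_apply, ← Finset.sum_add_distrib, ← Finset.sum_add_distrib]
      refine Finset.sum_congr rfl fun i _ => ?_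
      simp only [Pi.add_apply, Prod.fst_add, Prod.snd_add]; ring
    rw [h4, h2, h3, zero_add, zero_add] at h1
    exact h1
  have horth : ∀ z ∈ L ⊔ UU J q, ∀ w ∈ L ⊓ UU J q, BB ι z w = 0 := by
    intro z hz w hw
    obtain ⟨l, hl, u, hu, rfl⟩ := Submodule.mem_sup.1 hz
    obtain ⟨hwL, hw1, hw2⟩ := hw
    have hwq : (w q).1 = 0 ∧ (w q).2 = 0 := hcon w hwL hw1 hw2
    obtain ⟨hu1, hu2⟩ := hu
    rw [map_add, LinearMap.add_apply, hpol l hl w hwL, zero_add, BB_apply]
    refine Finset.sum_eq_zero fun i _ => ?_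
    by_cases hi : i ∈ J
    · rw [hu2 i hi, hw2 i hi, mul_zero, zero_mul, add_zero]
    · by_cases hiq : i = q
      · rw [hiq, hwq.1, hwq.2, mul_zero, mul_zero, add_zero]
      · have h5 : i ∉ insert q J := by
          rw [Finset.mem_insert, not_or]; exact ⟨hiq, hi⟩
        rw [hu1 i h5, hw1 i h5, mul_zero, zero_mul, add_zero]
  have h6 := finrank_le (L ⊓ UU J q) (L ⊔ UU J q) horth
  have h7 := Submodule.finrank_sup_add_finrank_inf_eq L (UU J q)
  omega

end Pool.Agent.Run7.h847.DI
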